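import Pool.Agent.H629.GC.Stm

/-!
# From the pieces of order `r` to the moments of order `r + 1`
-/

set_option autoImplicit false

open MeasureTheory ProbabilityTheory Set Filter
open scoped ENNReal Topology

namespace Pool.Agent.H190.GC.E3

open Pool.Agent.H629.GC

/-! ### The constants `ex C` -/

theorem ex_add (a b : ℝ) : ex (a + b) = ex a * ex b := by
  rw [ex, Real.exp_add, ENNReal.ofReal_mul (Real.exp_pos a).le]; rfl

theorem ex_ne_top (a : ℝ) : ex a ≠ ∞ := ENNReal.ofReal_ne_top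

theorem ex_mono {a b : ℝ} (h : a ≤ b) : ex a ≤ ex b :=
  ENNReal.ofReal_le_ofReal (Real.exp_le_exp.2 h)

theorem ex_rpow (a r : ℝ) : ex a ^ r = ex (a * r) := by
  rw [ex, ENNReal.ofReal_rpow_of_pos (Real.exp_pos a), ← Real.exp_mul]; rfl

theorem ex_pow (a : ℝ) (j : ℕ) : ex a ^ j = ex (a * j) := by
  rw [← ENNReal.rpow_natCast, ex_rpow]

theorem ex_lt_one {a : ℝ} (h : a < 0) : ex a < 1 := by
  rw [ex, ENNReal.ofReal_lt_one, ← Real.exp_zero]
  exact Real.exp_lt_exp.2 h

theorem exists_ex {a : ℝ≥0∞} (h : a ≠ ∞) : ∃ C : ℝ, a ≤ ex C := by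
  refine ⟨a.toReal, ?_⟩
  conv_lhs => rw [← ENNReal.ofReal_toReal h]
  refine ENNReal.ofReal_le_ofReal ?_
  have := Real.add_one_le_exp a.toReal
  linarith

/-- a geometric sum -/
theorem geom_sum {κ : ℝ} (hκ : 0 < κ) : ∃ C : ℝ, ∀ N : ℕ,
    ∑ j ∈ Finset.range N, ex (-(κ * j)) ≤ ex C := by
  have h1 : ex (-κ) < 1 := ex_lt_one (by linarith)
  have h2 : (1 - ex (-κ))⁻¹ ≠ ∞ := by
    rw [ENNReal.inv_ne_top]
    exact (tsub_pos_of_lt h1).ne'
  obtain ⟨C, hC⟩ := exists_ex h2
  refine ⟨C, fun N => ?_⟩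
  calc ∑ j ∈ Finset.range N, ex (-(κ * j)) = ∑ j ∈ Finset.range N, ex (-κ) ^ j := by
        refine Finset.sum_congr rfl fun j _ => ?_
        rw [ex_pow, neg_mul]
    _ ≤ ∑' j, ex (-κ) ^ j := ENNReal.sum_le_tsum _
    _ = (1 - ex (-κ))⁻¹ := ENNReal.tsum_geometric _
    _ ≤ ex C := hC

/-! ### No fields -/

section

variable {Ω T : Type} [MeasurableSpace Ω]

omit [MeasurableSpace Ω] in
theorem W_self (X : ℕ → T → Ω → ℝ) (L : List (ℝ × T)) (m : ℕ) (ω : Ω) : W X L m m ω = 1 := by
  simp [W, ev, S]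

theorem Ph_self (P : Measure Ω) [IsProbabilityMeasure P] (X : ℕ → T → Ω → ℝ) (L : List (ℝ × T))
    (m : ℕ) : Ph P X L m m = 1 := by
  simp [Ph, W_self]

theorem gh_self (P : Measure Ω) [IsProbabilityMeasure P] (X : ℕ → T → Ω → ℝ) (β : ℝ)
    (m : ℕ) (x : T) (ω : Ω) : gh P X β m m x ω = 1 := by
  simp [gh, W_self, Ph_self]

theorem Z_self [MeasurableSpace T] (P : Measure Ω) [IsProbabilityMeasure P] (X : ℕ → T → Ω → ℝ)
    (β : ℝ) (vol : Measure T) (m : ℕ) (A : Set T) (ω : Ω) : Z P X β vol m m A ω = vol A := by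
  simp [Z, gh_self]

end

/-! ### The pieces -/

/-- the piece with number `j` -/
def BB {T : Type} [MetricSpace T] (A : Set T) (x : T) (t : ℝ) (I j : ℕ) : Set T :=
  {y | y ∈ A ∧ (j = 0 ∨ dist x y ≤ Real.exp (-(t + (j - 1)))) ∧
    (j = I + 1 ∨ Real.exp (-(t + j)) < dist x y)}

theorem BB_sub {T : Type} [MetricSpace T] (A : Set T) (x : T) (t : ℝ) (I j : ℕ) :
    BB A x t I j ⊆ A := fun _ hy => hy.1

theorem BB_meas {T : Type} [MetricSpace T] [MeasurableSpace T] [BorelSpace T] {A : Set T}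
    (hA : MeasurableSet A) (x : T) (t : ℝ) (I j : ℕ) : MeasurableSet (BB A x t I j) := by
  have hd : Measurable fun y : T => dist x y := (continuous_const.dist continuous_id).measurable
  have h1 : MeasurableSet {y : T | dist x y ≤ Real.exp (-(t + (j - 1)))} :=
    measurableSet_le hd measurable_const
  have h2 : MeasurableSet {y : T | Real.exp (-(t + j)) < dist x y} :=
    measurableSet_lt measurable_const hd
  exact hA.inter (((MeasurableSet.const (j = 0)).union h1).inter
    ((MeasurableSet.const (j = I + 1)).union h2))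

theorem BB_cover {T : Type} [MetricSpace T] (A : Set T) (x : T) (t : ℝ) (I : ℕ) :
    A ⊆ ⋃ j : Fin (I + 2), BB A x t I j := by
  intro y hy
  classical
  have hex : ∃ j : ℕ, (j = I + 1 ∨ Real.exp (-(t + j)) < dist x y) := ⟨I + 1, Or.inl rfl⟩
  have h1 := Nat.find_spec hex
  have h2 : Nat.find hex ≤ I + 1 := Nat.find_min' hex (Or.inl rfl)
  refine mem_iUnion.2 ⟨⟨Nat.find hex, by omega⟩, hy, ?_, h1⟩
  rcases Nat.eq_zero_or_pos (Nat.find hex) with h | h
  · exact Or.inl h
  · right
    have h3 := Nat.find_min hex (m := Nat.find hex - 1) (by omega)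
    rw [not_or, not_lt] at h3
    have h4 := h3.2
    rw [Nat.cast_sub (by omega), Nat.cast_one] at h4
    exact h4

/-- the levels of the pieces -/
theorem level {s : ℕ → ℝ} {D : ℝ} (hstep : ∀ k, s (k + 1) ≤ s k + D) {m n : ℕ} (hmn : m ≤ n)
    {i : ℝ} (hi0 : 0 ≤ i) (hi : i < s n - s m) :
    ∃ k, m ≤ k ∧ k ≤ n ∧ s k ≤ s m + i ∧ s m + i - D ≤ s k := by
  classical
  have hm : s m ≤ s m + i := by linarith
  have h1 : s (Nat.findGreatest (fun k => s k ≤ s m + i) n) ≤ s m + i :=
    Nat.findGreatest_spec (P := fun k => s k ≤ s m + i) hmn hm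
  have h2 : m ≤ Nat.findGreatest (fun k => s k ≤ s m + i) n := Nat.le_findGreatest hmn hm
  have h3 : Nat.findGreatest (fun k => s k ≤ s m + i) n ≤ n := Nat.findGreatest_le n
  have h4 : Nat.findGreatest (fun k => s k ≤ s m + i) n ≠ n := by
    intro h
    rw [h] at h1
    linarith
  have h5 : ¬ s (Nat.findGreatest (fun k => s k ≤ s m + i) n + 1) ≤ s m + i :=
    Nat.findGreatest_is_greatest (P := fun k => s k ≤ s m + i) (n := n)
      (k := Nat.findGreatest (fun k => s k ≤ s m + i) n + 1) (Nat.lt_succ_self _) (by omega)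
  have h6 := hstep (Nat.findGreatest (fun k => s k ≤ s m + i) n)
  exact ⟨_, h2, h3, h1, by linarith⟩

theorem geom {T : Type} [MetricSpace T] {s : ℕ → ℝ} {D : ℝ} (hD : 0 ≤ D) (hs : Monotone s)
    (hstep : ∀ k, s (k + 1) ≤ s k + D) {m n : ℕ} (hmn : m ≤ n) {A : Set T} {x z : T} (hx : x ∈ A)
    (hA : A ⊆ Metric.closedBall z (Real.exp (-(s m)))) {c : ℝ} (hc : c ≤ Real.exp (-1 - D))
    {j : ℕ} (hj : j < ⌈s n - s m⌉₊ + 2) :
    ∃ (k : ℕ) (z' : T), m ≤ k ∧ k ≤ n ∧
      BB A x (s m) ⌈s n - s m⌉₊ j ⊆ Metric.closedBall z' (Real.exp (-(s k))) ∧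
      (∀ y ∈ BB A x (s m) ⌈s n - s m⌉₊ j, dist x y ≤ 2 * Real.exp (-(s k))) ∧
      (k = n ∨ ∀ y ∈ BB A x (s m) ⌈s n - s m⌉₊ j, c * Real.exp (-(s k)) ≤ dist x y) ∧
      (j : ℝ) - 2 - D ≤ s k - s m := by
  have hsmn : 0 ≤ s n - s m := by linarith [hs hmn]
  rcases Nat.eq_zero_or_pos j with rfl | hj0
  · refine ⟨m, z, le_rfl, hmn, fun y hy => hA hy.1, fun y hy => ?_, Or.inr fun y hy => ?_, ?_⟩
    · have h1 := Metric.mem_closedBall.1 (hA hx)
      have h2 := Metric.mem_closedBall.1 (hA hy.1)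
      have h3 := dist_triangle_right x y z
      linarith
    · rcases hy.2.2 with h | h
      · omega
      · have h1 : c ≤ 1 := hc.trans (by rw [Real.exp_le_one_iff]; linarith)
        have h2 : c * Real.exp (-(s m)) ≤ 1 * Real.exp (-(s m)) :=
          mul_le_mul_of_nonneg_right h1 (Real.exp_pos _).le
        simp only [Nat.cast_zero, add_zero] at h
        linarith
    · simp only [Nat.cast_zero]
      linarith
  · rcases Nat.lt_or_ge j (⌈s n - s m⌉₊ + 1) with hjI | hjI
    · have hj1 : ((j : ℝ) - 1) < s n - s m := by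
        have : j - 1 < ⌈s n - s m⌉₊ := by omega
        rw [Nat.lt_ceil, Nat.cast_sub (by omega), Nat.cast_one] at this
        exact this
      have hj2 : (0 : ℝ) ≤ (j : ℝ) - 1 := by
        have : (1 : ℝ) ≤ j := by exact_mod_cast hj0
        linarith
      obtain ⟨k, hk1, hk2, hk3, hk4⟩ := level hstep hmn hj2 hj1
      have hyk : ∀ y ∈ BB A x (s m) ⌈s n - s m⌉₊ j, dist x y ≤ Real.exp (-(s k)) := by
        intro y hy
        rcases hy.2.1 with h | h
        · omega
        · refine h.trans (Real.exp_le_exp.2 ?_)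
          linarith
      refine ⟨k, x, hk1, hk2, fun y hy => ?_, fun y hy => ?_, Or.inr fun y hy => ?_, ?_⟩
      · rw [Metric.mem_closedBall, dist_comm]
        exact hyk y hy
      · have h1 := hyk y hy
        have h2 := Real.exp_pos (-(s k))
        linarith
      · rcases hy.2.2 with h | h
        · omega
        · refine le_trans ?_ h.le
          calc c * Real.exp (-(s k)) ≤ Real.exp (-1 - D) * Real.exp (-(s k)) :=
                mul_le_mul_of_nonneg_right hc (Real.exp_pos _).le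
            _ = Real.exp (-1 - D + -(s k)) := (Real.exp_add _ _).symm
            _ ≤ Real.exp (-(s m + j)) := Real.exp_le_exp.2 (by linarith)
      · linarith
    · have hj1 : j = ⌈s n - s m⌉₊ + 1 := by omega
      have hce := Nat.le_ceil (s n - s m)
      have hce2 := Nat.ceil_lt_add_one hsmn
      have hjr : (j : ℝ) = (⌈s n - s m⌉₊ : ℝ) + 1 := by rw [hj1]; push_cast; ring
      have hyk : ∀ y ∈ BB A x (s m) ⌈s n - s m⌉₊ j, dist x y ≤ Real.exp (-(s n)) := by
        intro y hy
        rcases hy.2.1 with h | h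
        · omega
        · refine h.trans (Real.exp_le_exp.2 ?_)
          linarith
      refine ⟨n, x, hmn, le_rfl, fun y hy => ?_, fun y hy => ?_, Or.inl rfl, ?_⟩
      · rw [Metric.mem_closedBall, dist_comm]
        exact hyk y hy
      · have h1 := hyk y hy
        have h2 := Real.exp_pos (-(s n))
        linarith
      · linarith

theorem Z_le {Ω T : Type} [MeasurableSpace Ω] [MetricSpace T] [MeasurableSpace T]
    (P : Measure Ω) (X : ℕ → T → Ω → ℝ) (β : ℝ) (vol : Measure T) (m n : ℕ) (A : Set T) (x : T)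
    (t : ℝ) (I : ℕ) (ω : Ω) :
    Z P X β vol m n A ω ≤ ∑ j ∈ Finset.range (I + 2), Z P X β vol m n (BB A x t I j) ω := by
  calc Z P X β vol m n A ω ≤ ∫⁻ y in ⋃ j : Fin (I + 2), BB A x t I j, gh P X β m n y ω ∂vol :=
        lintegral_mono_set (BB_cover A x t I)
    _ ≤ ∑' j : Fin (I + 2), ∫⁻ y in BB A x t I j, gh P X β m n y ω ∂vol :=
        lintegral_iUnion_le _ _
    _ = ∑ j ∈ Finset.range (I + 2), Z P X β vol m n (BB A x t I j) ω := by
        rw [tsum_fintype, Finset.sum_range]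
        rfl

theorem gh_left {Ω T : Type} [MeasurableSpace Ω] [MeasurableSpace T] {P : Measure Ω}
    {X : ℕ → T → Ω → ℝ} {β : ℝ} {m n : ℕ}
    (h : Measurable (fun z : T × Ω => gh P X β m n z.1 z.2)) (ω : Ω) :
    Measurable fun x => gh P X β m n x ω := by
  have h1 : Measurable fun x : T => (x, ω) := measurable_prodMk_right
  have h2 := h.comp h1
  have h3 : (fun z : T × Ω => gh P X β m n z.1 z.2) ∘ (fun x : T => (x, ω)) =
    fun x => gh P X β m n x ω := rfl
  rwa [h3] at h2

theorem joint {Ω T : Type} [MeasurableSpace Ω] [MeasurableSpace T] {P : Measure Ω}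
    {X : ℕ → T → Ω → ℝ} {β : ℝ} {m n : ℕ}
    (h : Measurable (fun z : T × Ω => gh P X β m n z.1 z.2)) {f g : Ω → ℝ≥0∞}
    (hf : Measurable f) (hg : Measurable g) :
    Measurable (Function.uncurry fun ω x => f ω * gh P X β m n x ω * g ω) := by
  have h1 : Measurable fun p : Ω × T => f p.1 := hf.comp measurable_fst
  have h2 := h.comp (measurable_swap (α := Ω) (β := T))
  have h3 : Measurable fun p : Ω × T => g p.1 := hg.comp measurable_fst
  exact (h1.mul h2).mul h3

theorem t_E3 : S_A2 → S_C2 → S_C3 → S_E3 := by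
  intro hA2 hC2 hC3 Ω T i₁ i₂ i₄ i₃ i₅ P X Q s vol β d hch hQ hvol hreg hd r hr hrd hP N Λ c hc
  have hprob := hch.prob
  obtain ⟨D₀, hD₀⟩ := hch.step
  set D : ℝ := max D₀ 0 with hDdef
  have hD0 : 0 ≤ D := le_max_right _ _
  have hstep : ∀ k, s (k + 1) ≤ s k + D := fun k =>
    (hD₀ k).trans (by linarith [le_max_left D₀ 0])
  set c' : ℝ := min c (Real.exp (-1 - D)) with hc'def
  have hc'0 : 0 < c' := lt_min hc (Real.exp_pos _)
  have hc'c : c' ≤ c := min_le_left _ _
  have hc'D : c' ≤ Real.exp (-1 - D) := min_le_right _ _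
  obtain ⟨C₀, hC₀⟩ := hreg
  obtain ⟨C₁, hC₁⟩ := hP N Λ c' 2 hc'0
  set κ : ℝ := r * (d - β ^ 2 / 2 * (1 + r)) with hκdef
  have hκ : 0 < κ := mul_pos hr (by linarith)
  obtain ⟨C₂, hC₂⟩ := hA2 r (κ / 2) hr (by linarith)
  obtain ⟨C₃, hC₃⟩ := geom_sum (κ := κ / 2) (by linarith)
  refine ⟨max (C₀ * (r + 1)) (C₂ + (C₁ + κ * (2 + D) + C₃) + C₀), ?_⟩
  intro L m n A z hmn hL hAm hAQ hAz hfar
  have hvolA : vol A ≤ ex (C₀ + d * -(s m)) := (measure_mono hAz).trans (hC₀ z _)
  rcases eq_or_lt_of_le hmn with rfl | hlt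
  · simp only [W_self, Z_self, Ph_self, one_mul, mul_one, lintegral_const, measure_univ]
    calc vol A ^ (r + 1) ≤ ex (C₀ + d * -(s m)) ^ (r + 1) :=
          ENNReal.rpow_le_rpow hvolA (by linarith)
      _ = ex (C₀ * (r + 1) - d * (r + 1) * s m) := by
          rw [ex_rpow]; congr 1; ring
      _ ≤ _ := by
          have h1 := le_max_left (C₀ * (r + 1)) (C₂ + (C₁ + κ * (2 + D) + C₃) + C₀)
          exact ex_mono (by linarith)
  · have hfar' : Far c (s m) L A := by
      rcases hfar with h | h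
      · omega
      · exact h
    obtain ⟨hSg, hWm, hgm, hZm, hgj⟩ := hC2 Ω T i₁ i₂ i₄ i₃ i₅ P X hch.toBase β vol hvol m n
    have hW : Measurable (W X L m n) := (hWm L).mono hSg le_rfl
    have hg : ∀ x, Measurable (gh P X β m n x) := fun x => (hgm x).mono hSg le_rfl
    have hZ : ∀ B, MeasurableSet B → Measurable (Z P X β vol m n B) :=
      fun B hB => (hZm B hB).mono hSg le_rfl
    have hgx : ∀ ω, Measurable fun x => gh P X β m n x ω := gh_left hgj
    -- one point
    have key : ∀ x ∈ A, ∫⁻ ω, W X L m n ω * gh P X β m n x ω * Z P X β vol m n A ω ^ r ∂P ≤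
        ex (C₂ + (C₁ + κ * (2 + D) + C₃) - d * r * s m) * Ph P X L m n := by
      intro x hx
      have hpiece : ∀ j ∈ Finset.range (⌈s n - s m⌉₊ + 2),
          ∫⁻ ω, W X L m n ω * gh P X β m n x ω *
            Z P X β vol m n (BB A x (s m) ⌈s n - s m⌉₊ j) ω ^ r ∂P ≤
          ex (C₁ + κ * (2 + D) - d * r * s m - κ * j) * Ph P X L m n := by
        intro j hj
        obtain ⟨k, z', hk1, hk2, hk3, hk4, hk5, hk6⟩ := geom hD0 hch.mono hstep hmn hx hAz hc'D
          (Finset.mem_range.1 hj)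
        have hbb := BB_sub A x (s m) ⌈s n - s m⌉₊ j
        have hcc : c' * Real.exp (-(s m)) ≤ c * Real.exp (-(s m)) :=
          mul_le_mul_of_nonneg_right hc'c (Real.exp_pos _).le
        have h1 := hC₁ L m k n (BB A x (s m) ⌈s n - s m⌉₊ j) x z' hk1 hk2 hL
          (BB_meas hAm x (s m) _ j) (hbb.trans hAQ) (hAQ hx) hk3 hk4 hk5
          (fun a ha y hy => hcc.trans (hfar' a ha y (hbb hy)))
          (fun a ha y hy => by
            rw [mem_singleton_iff.1 hy]
            exact hcc.trans (hfar' a ha x hx))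
        simp only [ENNReal.rpow_zero, mul_one, add_zero] at h1
        refine h1.trans (mul_le_mul' (ex_mono ?_) le_rfl)
        have h2 : κ * ((j : ℝ) - 2 - D) ≤ κ * (s k - s m) := mul_le_mul_of_nonneg_left hk6 hκ.le
        have h3 : C₁ + β ^ 2 / 2 * ((1 + r) ^ 2 - (1 + r)) * (s k - s m) - d * r * s k =
            C₁ - d * r * s m - κ * (s k - s m) := by
          rw [hκdef]; ring
        rw [h3]
        linarith
      calc ∫⁻ ω, W X L m n ω * gh P X β m n x ω * Z P X β vol m n A ω ^ r ∂P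
          ≤ ∫⁻ ω, ex C₂ * ∑ j ∈ Finset.range (⌈s n - s m⌉₊ + 2), ex (κ / 2 * j) *
              (W X L m n ω * gh P X β m n x ω *
                Z P X β vol m n (BB A x (s m) ⌈s n - s m⌉₊ j) ω ^ r) ∂P := by
            refine lintegral_mono fun ω => ?_
            have h1 := (ENNReal.rpow_le_rpow
              (Z_le P X β vol m n A x (s m) ⌈s n - s m⌉₊ ω) hr.le).trans
              (hC₂ (⌈s n - s m⌉₊ + 2)
                (fun j => Z P X β vol m n (BB A x (s m) ⌈s n - s m⌉₊ j) ω))
            refine (mul_le_mul' le_rfl h1).trans (le_of_eq ?_)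
            rw [Finset.mul_sum, Finset.mul_sum, Finset.mul_sum]
            refine Finset.sum_congr rfl fun j _ => ?_
            ring
        _ = ex C₂ * ∑ j ∈ Finset.range (⌈s n - s m⌉₊ + 2), ex (κ / 2 * j) *
              ∫⁻ ω, W X L m n ω * gh P X β m n x ω *
                Z P X β vol m n (BB A x (s m) ⌈s n - s m⌉₊ j) ω ^ r ∂P := by
            rw [lintegral_const_mul' _ _ (ex_ne_top _), lintegral_finsetSum]
            · congr 1
              refine Finset.sum_congr rfl fun j _ => ?_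
              rw [lintegral_const_mul' _ _ (ex_ne_top _)]
            · intro j _
              exact ((hW.mul (hg x)).mul
                ((hZ _ (BB_meas hAm x (s m) _ j)).pow_const r)).const_mul _
        _ ≤ ex C₂ * ∑ j ∈ Finset.range (⌈s n - s m⌉₊ + 2), ex (κ / 2 * j) *
              (ex (C₁ + κ * (2 + D) - d * r * s m - κ * j) * Ph P X L m n) := by
            refine mul_le_mul' le_rfl (Finset.sum_le_sum fun j hj => ?_)
            exact mul_le_mul' le_rfl (hpiece j hj)
        _ = ex C₂ * (ex (C₁ + κ * (2 + D) - d * r * s m) *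
              (∑ j ∈ Finset.range (⌈s n - s m⌉₊ + 2), ex (-(κ / 2 * j)))) * Ph P X L m n := by
            rw [mul_assoc (ex C₂)]
            congr 1
            rw [Finset.mul_sum, Finset.sum_mul]
            refine Finset.sum_congr rfl fun j _ => ?_
            rw [← mul_assoc, ← ex_add, ← ex_add]
            congr 2
            ring
        _ ≤ ex C₂ * (ex (C₁ + κ * (2 + D) - d * r * s m) * ex C₃) * Ph P X L m n :=
            mul_le_mul' (mul_le_mul' le_rfl (mul_le_mul' le_rfl (hC₃ _))) le_rfl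
        _ = ex (C₂ + (C₁ + κ * (2 + D) + C₃) - d * r * s m) * Ph P X L m n := by
            rw [← ex_add, ← ex_add]
            congr 2
            ring
    -- Tonelli
    calc ∫⁻ ω, W X L m n ω * Z P X β vol m n A ω ^ (r + 1) ∂P
        = ∫⁻ ω, ∫⁻ x in A, W X L m n ω * gh P X β m n x ω * Z P X β vol m n A ω ^ r ∂vol ∂P := by
          refine lintegral_congr fun ω => ?_
          have h1 : ∀ x, W X L m n ω * gh P X β m n x ω * Z P X β vol m n A ω ^ r =
              (W X L m n ω * Z P X β vol m n A ω ^ r) * gh P X β m n x ω := fun x => by ring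
          simp only [h1]
          rw [lintegral_const_mul _ (hgx ω), ENNReal.rpow_add_of_nonneg _ _ hr.le zero_le_one,
            ENNReal.rpow_one, ← mul_assoc]
          rfl
      _ = ∫⁻ x in A, ∫⁻ ω, W X L m n ω * gh P X β m n x ω * Z P X β vol m n A ω ^ r ∂P ∂vol := by
          rw [lintegral_lintegral_swap]
          refine Measurable.aemeasurable ?_
          exact joint hgj hW ((hZ A hAm).pow_const r)
      _ ≤ ∫⁻ _x in A, ex (C₂ + (C₁ + κ * (2 + D) + C₃) - d * r * s m) * Ph P X L m n ∂vol :=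
          setLIntegral_mono' hAm key
      _ = ex (C₂ + (C₁ + κ * (2 + D) + C₃) - d * r * s m) * Ph P X L m n * vol A := by
          rw [setLIntegral_const]
      _ ≤ ex (C₂ + (C₁ + κ * (2 + D) + C₃) - d * r * s m) * Ph P X L m n *
            ex (C₀ + d * -(s m)) := mul_le_mul' le_rfl hvolA
      _ = ex (C₂ + (C₁ + κ * (2 + D) + C₃) + C₀ - d * (r + 1) * s m) * Ph P X L m n := by
          rw [mul_right_comm, ← ex_add]
          congr 2
          ring
      _ ≤ _ := by
          have h1 := le_max_right (C₀ * (r + 1)) (C₂ + (C₁ + κ * (2 + D) + C₃) + C₀)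
          exact mul_le_mul' (ex_mono (by linarith)) le_rfl

end Pool.Agent.H190.GC.E3
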